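import Mathlib
import Pool.Agent.R246.BlockHad

/-!
# No regular choice of norm-ratio constants for special `k`-Hadamard operators, `k ≤ 1`
-/

namespace Pool.Agent.Results.MP_977787_an.BlockFourier

open MeasureTheory Filter Topology Set
open scoped ENNReal NNReal ComplexConjugate

noncomputable section

/-- Complex-valued functions on `ℝ^n`. -/
abbrev Fn (n : ℕ) : Type := (Fin n → ℝ) → ℂ

/-- `f ∈ L^p(ℝ^n)` -/
def InLp {n : ℕ} (p : ℝ≥0∞) (f : Fn n) : Prop :=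
  MemLp (f : (Fin n → ℝ) → ℂ) p (volume : Measure (Fin n → ℝ))

/-- The norm `‖f‖_p ∈ [0, ∞]`. -/
def nrm {n : ℕ} (p : ℝ≥0∞) (f : Fn n) : ℝ≥0∞ :=
  eLpNorm (f : (Fin n → ℝ) → ℂ) p (volume : Measure (Fin n → ℝ))

/-- `f = g` almost everywhere -/
def AEeq {n : ℕ} (f g : Fn n) : Prop := f =ᵐ[(volume : Measure (Fin n → ℝ))] g

/-- `⟨f, g⟩ = ∫ f(x) conj (g(x)) dx` -/
def pair {n : ℕ} (f g : Fn n) : ℂ := ∫ x : Fin n → ℝ, f x * conj (g x)

/-- `T` is a bounded linear operator on `L²(ℝ^n)`, given as a map of functions modulo equality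
almost everywhere. -/
structure IsL2Operator {n : ℕ} (T : Fn n → Fn n) : Prop where
  maps : ∀ f, InLp 2 f → InLp 2 (T f)
  congr : ∀ f g, InLp 2 f → AEeq f g → AEeq (T f) (T g)
  add : ∀ f g : Fn n, InLp 2 f → InLp 2 g → AEeq (T fun x => f x + g x) (fun x => T f x + T g x)
  smul : ∀ (c : ℂ) (f : Fn n), InLp 2 f → AEeq (T fun x => c * f x) (fun x => c * T f x)
  bounded : ∃ C : ℝ≥0, ∀ f, InLp 2 f → nrm 2 (T f) ≤ C * nrm 2 f

/-- `A` is a special `k`-Hadamard operator on `ℝ^n`: `A` is a bounded operator on `L²(ℝ^n)` with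
`‖A f‖_∞ ≤ ‖f‖_1`, it has a bounded inverse `A'`, its adjoint `B` is `k A'`, and
`‖B f‖_∞ ≤ C ‖f‖_1` for some `C` (for all `f ∈ L²`; only the `f` in the dense subspace `L¹ ∩ L²` of
`L¹` matter, since `‖f‖_1 = ∞` for the others). -/
def IsSpecialHadamard {n : ℕ} (k : ℝ) (A : Fn n → Fn n) : Prop :=
  IsL2Operator A ∧ (∀ f, InLp 2 f → nrm ∞ (A f) ≤ nrm 1 f) ∧
  ∃ A' B : Fn n → Fn n, IsL2Operator A' ∧ IsL2Operator B ∧
    (∀ f, InLp 2 f → AEeq (A (A' f)) f ∧ AEeq (A' (A f)) f) ∧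
    (∀ f g, InLp 2 f → InLp 2 g → pair (A f) g = pair f (B g)) ∧
    (∀ f, InLp 2 f → AEeq (B f) (fun x => k * A' f x)) ∧
    ∃ C : ℝ≥0, ∀ f, InLp 2 f → nrm ∞ (B f) ≤ C * nrm 1 f

/-- The ratio `‖f‖_p ‖A f‖_p / (‖f‖_2 ‖A f‖_2)`. -/
def ratio {n : ℕ} (A : Fn n → Fn n) (p : ℝ≥0∞) (f : Fn n) : ℝ :=
  (nrm p f).toReal * (nrm p (A f)).toReal / ((nrm 2 f).toReal * (nrm 2 (A f)).toReal)

/-- `C > 0` is admissible for `(A, p)`: the ratio is `≥ C` for all nonzero `f ∈ L²` with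
`f, A f ∈ L^p`. -/
def Admissible {n : ℕ} (A : Fn n → Fn n) (p : ℝ≥0∞) (C : ℝ) : Prop :=
  0 < C ∧ ∀ f, InLp 2 f → ¬ AEeq f (fun _ => 0) → InLp p f → InLp p (A f) → C ≤ ratio A p f

/-- There are `σ ∈ (0,1]` and admissible constants `C p`, `p ∈ (2-σ, 2]`, with `C 2 = 1`,
`C p → 1` as `p ↑ 2`, such that `C` is differentiable and strictly decreasing on `(2-σ, 2)`. -/
def RegularChoice {n : ℕ} (A : Fn n → Fn n) : Prop :=
  ∃ σ : ℝ, 0 < σ ∧ σ ≤ 1 ∧ ∃ C : ℝ → ℝ,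
    (∀ p ∈ Ioc (2 - σ) 2, Admissible A (ENNReal.ofReal p) (C p)) ∧
    C 2 = 1 ∧ Tendsto C (𝓝[<] 2) (𝓝 1) ∧ DifferentiableOn ℝ C (Ioo (2 - σ) 2) ∧
    StrictAntiOn C (Ioo (2 - σ) 2)

open Classical in
/-- the operator on functions induced by an operator on classes -/
def lift {n : ℕ} (T : R246.BlockHad.L2 n →L[ℂ] R246.BlockHad.L2 n) (f : Fn n) : Fn n :=
  if h : InLp 2 f then (T (MemLp.toLp (f : (Fin n → ℝ) → ℂ) h) : (Fin n → ℝ) → ℂ) else fun _ => 0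

lemma lift_of {n : ℕ} (T : R246.BlockHad.L2 n →L[ℂ] R246.BlockHad.L2 n) {f : Fn n} (h : InLp 2 f) :
    lift T f = (T (MemLp.toLp (f : (Fin n → ℝ) → ℂ) h) : (Fin n → ℝ) → ℂ) := by
  unfold lift
  rw [dif_pos h]

lemma lift_inLp {n : ℕ} (T : R246.BlockHad.L2 n →L[ℂ] R246.BlockHad.L2 n) {f : Fn n}
    (h : InLp 2 f) : InLp 2 (lift T f) := by
  rw [lift_of T h]
  exact Lp.memLp _

lemma toLp_lift {n : ℕ} (T : R246.BlockHad.L2 n →L[ℂ] R246.BlockHad.L2 n) {f : Fn n}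
    (h : InLp 2 f) : MemLp.toLp (lift T f : (Fin n → ℝ) → ℂ) (lift_inLp T h) =
      T (MemLp.toLp (f : (Fin n → ℝ) → ℂ) h) := by
  apply Lp.ext
  refine (MemLp.coeFn_toLp _).trans ?_
  rw [lift_of T h]

lemma lift_isL2 {n : ℕ} (T : R246.BlockHad.L2 n →L[ℂ] R246.BlockHad.L2 n) :
    IsL2Operator (lift T) := by
  refine ⟨fun f hf => lift_inLp T hf, ?_, ?_, ?_, ⟨‖T‖₊, ?_⟩⟩
  · intro f g hf hfg
    have hg : InLp 2 g := (memLp_congr_ae hfg).1 hf
    rw [lift_of T hf, lift_of T hg]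
    have : MemLp.toLp (f : (Fin n → ℝ) → ℂ) hf = MemLp.toLp (g : (Fin n → ℝ) → ℂ) hg :=
      (MemLp.toLp_eq_toLp_iff hf hg).2 hfg
    rw [this]
    exact ae_eq_refl _
  · intro f g hf hg
    have hfg : InLp 2 (fun x => f x + g x : Fn n) := MemLp.add hf hg
    rw [lift_of T hf, lift_of T hg, lift_of T hfg]
    have : MemLp.toLp ((fun x => f x + g x : Fn n) : (Fin n → ℝ) → ℂ) hfg =
      MemLp.toLp (f : (Fin n → ℝ) → ℂ) hf + MemLp.toLp (g : (Fin n → ℝ) → ℂ) hg := rfl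
    rw [this, map_add]
    exact Lp.coeFn_add _ _
  · intro c f hf
    have hcf : InLp 2 (fun x => c * f x : Fn n) := MemLp.const_mul hf c
    rw [lift_of T hf, lift_of T hcf]
    have : MemLp.toLp ((fun x => c * f x : Fn n) : (Fin n → ℝ) → ℂ) hcf =
      c • MemLp.toLp (f : (Fin n → ℝ) → ℂ) hf := rfl
    rw [this, map_smul]
    exact Lp.coeFn_smul _ _
  · intro f hf
    rw [lift_of T hf]
    have h1 := T.le_opNorm (MemLp.toLp (f : (Fin n → ℝ) → ℂ) hf)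
    have h2 : nrm 2 ((T (MemLp.toLp (f : (Fin n → ℝ) → ℂ) hf) : (Fin n → ℝ) → ℂ) : Fn n) =
        ENNReal.ofReal ‖T (MemLp.toLp (f : (Fin n → ℝ) → ℂ) hf)‖ := by
      rw [Lp.norm_def, ENNReal.ofReal_toReal (Lp.eLpNorm_ne_top _)]
      rfl
    have h3 : nrm 2 f = ENNReal.ofReal ‖MemLp.toLp (f : (Fin n → ℝ) → ℂ) hf‖ := by
      have h4 := Lp.norm_toLp (f : (Fin n → ℝ) → ℂ) hf
      rw [h4, ENNReal.ofReal_toReal hf.2.ne]
      rfl
    rw [h2, h3]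
    refine (ENNReal.ofReal_le_ofReal h1).trans_eq ?_
    rw [ENNReal.ofReal_mul (norm_nonneg _)]
    congr 1
    rw [← coe_nnnorm, ENNReal.ofReal_coe_nnreal]

/-- **Main theorem.** For every `n ≥ 1` and every `k ∈ (0, 1]` there is a special `k`-Hadamard
operator `A` on `ℝ^n` without a regular choice of admissible constants. -/
theorem result (n : ℕ) (hn : 1 ≤ n) (k : ℝ) (hk0 : 0 < k) (hk1 : k ≤ 1) :
    ∃ A : Fn n → Fn n, IsSpecialHadamard k A ∧ ¬ RegularChoice A := by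
  obtain ⟨A, hA, hR⟩ := R246.BlockHad.exists_block n hn k hk0 hk1
  have toLp_norm : ∀ (p : ℝ≥0∞) {f : Fn n} (hf : InLp 2 f),
      eLpNorm (MemLp.toLp (f : (Fin n → ℝ) → ℂ) hf) p volume = nrm p f := by
    intro p f hf
    exact eLpNorm_congr_ae (MemLp.coeFn_toLp hf)
  refine ⟨lift A, ⟨lift_isL2 A, ?_, ?_⟩, ?_⟩
  · intro f hf
    have h := hA.bound (MemLp.toLp (f : (Fin n → ℝ) → ℂ) hf)
    rw [toLp_norm 1 hf] at h
    rw [lift_of A hf]
    exact h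
  · obtain ⟨A', h1, h2, h3⟩ := hA.adjoint_eq
    obtain ⟨C, hC⟩ := hA.adjoint_bound
    refine ⟨lift A', lift (ContinuousLinearMap.adjoint A), lift_isL2 _, lift_isL2 _, ?_, ?_, ?_,
      C, ?_⟩
    · intro f hf
      constructor
      · rw [lift_of A (lift_inLp A' hf), toLp_lift A' hf]
        have h4 : A (A' (MemLp.toLp (f : (Fin n → ℝ) → ℂ) hf)) =
            MemLp.toLp (f : (Fin n → ℝ) → ℂ) hf := DFunLike.congr_fun h1 _
        rw [h4]
        exact MemLp.coeFn_toLp hf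
      · rw [lift_of A' (lift_inLp A hf), toLp_lift A hf]
        have h4 : A' (A (MemLp.toLp (f : (Fin n → ℝ) → ℂ) hf)) =
            MemLp.toLp (f : (Fin n → ℝ) → ℂ) hf := DFunLike.congr_fun h2 _
        rw [h4]
        exact MemLp.coeFn_toLp hf
    · intro f g hf hg
      have h4 := ContinuousLinearMap.adjoint_inner_left A (MemLp.toLp (f : (Fin n → ℝ) → ℂ) hf)
        (MemLp.toLp (g : (Fin n → ℝ) → ℂ) hg)
      rw [L2.inner_def, L2.inner_def] at h4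
      have e1 : pair (lift A f) g = ∫ a, inner ℂ ((MemLp.toLp (g : (Fin n → ℝ) → ℂ) hg : (Fin n → ℝ) → ℂ) a)
          ((A (MemLp.toLp (f : (Fin n → ℝ) → ℂ) hf) : (Fin n → ℝ) → ℂ) a) := by
        rw [lift_of A hf]
        refine integral_congr_ae ?_
        filter_upwards [MemLp.coeFn_toLp hg] with x hx
        rw [hx, RCLike.inner_apply]
      have e2 : pair f (lift (ContinuousLinearMap.adjoint A) g) =
          ∫ a, inner ℂ ((ContinuousLinearMap.adjoint A (MemLp.toLp (g : (Fin n → ℝ) → ℂ) hg) :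
            (Fin n → ℝ) → ℂ) a) ((MemLp.toLp (f : (Fin n → ℝ) → ℂ) hf : (Fin n → ℝ) → ℂ) a) := by
        rw [lift_of _ hg]
        refine integral_congr_ae ?_
        filter_upwards [MemLp.coeFn_toLp hf] with x hx
        rw [hx, RCLike.inner_apply]
      rw [e1, e2]
      exact h4.symm
    · intro f hf
      rw [lift_of _ hf, lift_of _ hf, h3]
      exact Lp.coeFn_smul (k : ℂ) (A' (MemLp.toLp (f : (Fin n → ℝ) → ℂ) hf))
    · intro f hf
      have h := hC (MemLp.toLp (f : (Fin n → ℝ) → ℂ) hf)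
      rw [toLp_norm 1 hf] at h
      rw [lift_of _ hf]
      exact h
  · rintro ⟨σ, hσ0, hσ1, C, hC, h2, hlim, hdiff, hanti⟩
    refine hR ⟨σ, hσ0, hσ1, C, fun p hp => ?_, h2, hlim, hdiff, hanti⟩
    obtain ⟨hC0, hC1⟩ := hC p hp
    refine ⟨hC0, fun f hf hfp hAfp => ?_⟩
    have hf2 : InLp 2 (f : (Fin n → ℝ) → ℂ) := Lp.memLp f
    have e : lift A (f : (Fin n → ℝ) → ℂ) = (A f : (Fin n → ℝ) → ℂ) := by
      rw [lift_of A hf2]
      have h6 : MemLp.toLp (f : (Fin n → ℝ) → ℂ) hf2 = f := Lp.toLp_coeFn f hf2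
      rw [h6]
    have h5 := hC1 (f : (Fin n → ℝ) → ℂ) hf2 ?_ hfp ?_
    · unfold ratio at h5
      rw [e] at h5
      exact h5
    · intro h
      exact hf ((Lp.eq_zero_iff_ae_eq_zero).2 h)
    · rw [e]; exact hAfp

end

end Pool.Agent.Results.MP_977787_an.BlockFourier
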